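import Mathlib

open Polynomial

namespace Pool.Agent.Results.MP_7b40b5_an.No

variable {k : ℕ}

/-- Finite words over the alphabet `Fin k`. -/
abbrev Word (k : ℕ) := List (Fin k)

/-- The extension of a substitution to words by concatenation. -/
def app (σ : Fin k → Word k) (w : Word k) : Word k := w.flatMap σ

/-- The reversal of a substitution. -/
def rev (σ : Fin k → Word k) : Fin k → Word k := fun i => (σ i).reverse

/-- The incidence matrix: entry `(i, j)` counts the letter `i` in `σ j`. -/
def incid (σ : Fin k → Word k) : Matrix (Fin k) (Fin k) ℤ :=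
  Matrix.of fun i j => ((σ j).count i : ℤ)

/-- Pisot numbers. -/
def IsPisot (x : ℝ) : Prop :=
  1 < x ∧ IsIntegral ℤ x ∧ ∀ z : ℂ, aeval z (minpoly ℚ x) = 0 → z ≠ x → ‖z‖ < 1

/-- Unimodular irreducible Pisot substitution: the Perron-Frobenius eigenvalue (the real
eigenvalue dominating all moduli) is a Pisot number, the characteristic polynomial is irreducible
over `ℚ` and the determinant is `±1`. -/
def UIP (σ : Fin k → Word k) : Prop :=
  (∃ x : ℝ, aeval x (incid σ).charpoly = 0 ∧
    (∀ z : ℂ, aeval z (incid σ).charpoly = 0 → ‖z‖ ≤ x) ∧ IsPisot x) ∧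
  Irreducible ((incid σ).charpoly.map (Int.castRingHom ℚ)) ∧ |(incid σ).det| = 1

/-- The prefix of length `n` of an infinite word. -/
def pre (u : ℕ → Fin k) (n : ℕ) : Word k := (List.range n).map u

/-- `u` is a one-sided fixed point of the non-erasing substitution `σ`. -/
def IsFixed (σ : Fin k → Word k) (u : ℕ → Fin k) : Prop :=
  (∀ i, σ i ≠ []) ∧ ∀ n, app σ (pre u n) = pre u (app σ (pre u n)).length

/-- Balanced pairs. -/
def Bal (U V : Word k) : Prop := ∀ i, U.count i = V.count i

instance (U V : Word k) : Decidable (Bal U V) := by unfold Bal; infer_instance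

/-- Cut a balanced pair wherever the prefix vectors agree. -/
def split (U V : Word k) : List (Word k × Word k) :=
  let c := (List.range (U.length + 1)).filter fun m => decide (Bal (U.take m) (V.take m))
  (c.zip c.tail).map fun e => ((U.take e.2).drop e.1, (V.take e.2).drop e.1)

/-- The balanced pair substitution `P ↦ P₁ ⋯ P_r`. -/
def Sig (σ : Fin k → Word k) (P : Word k × Word k) : List (Word k × Word k) :=
  split (app σ P.1) (app (rev σ) P.2)

/-- The incidence matrix of the balanced pair substitution on the alphabet `B`. -/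
def MSig (σ : Fin k → Word k) (B : Finset (Word k × Word k)) : Matrix B B ℤ :=
  Matrix.of fun P Q => ((Sig σ Q.1).count P.1 : ℤ)

lemma exists_fixed (σ : Fin k → Word k) (hσ : ∀ i, σ i ≠ []) (a b : Fin k) (t : Word k)
    (ha : σ a = a :: b :: t) : ∃ u, IsFixed σ u ∧ u 0 = a ∧ u 1 = b := by
  set w : ℕ → Word k := fun n => (app σ)^[n] [a] with hw
  have hs : ∀ n, w (n + 1) = app σ (w n) := fun n => Function.iterate_succ_apply' _ _ _
  have happ : ∀ U V : Word k, app σ (U ++ V) = app σ U ++ app σ V := fun U V =>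
    List.flatMap_append
  have hne : ∀ V : Word k, V ≠ [] → app σ V ≠ [] := by
    intro V hV
    obtain ⟨x, V', rfl⟩ := List.exists_cons_of_ne_nil hV
    simp [app, hσ x]
  have h1 : ∀ n, ∃ V, V ≠ [] ∧ w (n + 1) = w n ++ V := by
    intro n
    induction n with
    | zero => exact ⟨b :: t, by simp, by simp [hw, app, ha]⟩
    | succ n ih =>
      obtain ⟨V, hV, e⟩ := ih
      exact ⟨app σ V, hne V hV, by rw [hs (n + 1), e, happ, ← hs, e]⟩
  have hlen : ∀ n, n < (w n).length := by
    intro n
    induction n with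
    | zero => simp [hw]
    | succ n ih =>
      obtain ⟨V, hV, e⟩ := h1 n
      have := List.length_pos_of_ne_nil hV
      rw [e, List.length_append]; omega
  have hpre : ∀ n m, n ≤ m → w n <+: w m := by
    intro n m h
    induction h with
    | refl => exact List.prefix_rfl
    | step _ ih =>
      obtain ⟨V, -, e⟩ := h1 _
      exact ih.trans (e ▸ List.prefix_append _ _)
  set u : ℕ → Fin k := fun i => (w i)[i]'(hlen i) with hu
  have hp : ∀ n m, n ≤ m → pre u n = (w m).take n := by
    intro n m h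
    refine List.ext_getElem ?_ fun i h1 h2 => ?_
    · have := hlen m
      simp [pre]; omega
    · simp only [pre, List.length_map, List.length_range] at h1
      simp only [pre, List.getElem_map, List.getElem_range, List.getElem_take, hu]
      exact (hpre i m (by omega)).getElem (hlen i)
  refine ⟨u, ⟨hσ, fun n => ?_⟩, by simp [hu, hw], by simp [hu, hw, app, ha]⟩
  set L := (app σ (pre u n)).length
  rw [hp L (n + L + 1) (by omega), hs]
  refine List.prefix_iff_eq_take.1 ?_
  rw [hp n (n + L) (by omega)]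
  conv_rhs => rw [← List.take_append_drop n (w (n + L)), happ]
  exact List.prefix_append _ _

def σ : Fin 3 → Word 3 := ![[0, 1], [2, 0, 1], [0]]

lemma incid_eq : incid σ = !![1, 1, 1; 1, 1, 0; 0, 1, 0] := by
  ext i j; fin_cases i <;> fin_cases j <;> rfl

lemma cp : (incid σ).charpoly = X ^ 3 - 2 * X ^ 2 - 1 := by
  rw [incid_eq, Matrix.charpoly, Matrix.det_fin_three]
  simp [Matrix.charmatrix_apply]
  ring

lemma uip : UIP σ := by
  obtain ⟨x, ⟨h2, h3⟩, hx⟩ : ∃ x ∈ Set.Ioo (2 : ℝ) 3, x ^ 3 - 2 * x ^ 2 - 1 = 0 :=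
    intermediate_value_Ioo (f := fun x : ℝ => x ^ 3 - 2 * x ^ 2 - 1) (by norm_num) (by fun_prop)
      (by constructor <;> norm_num)
  have key : ∀ z : ℂ, z ^ 3 - 2 * z ^ 2 - 1 = 0 → z ≠ x → ‖z‖ < 1 := by
    intro z hz hne
    have hxc : (x : ℂ) ^ 3 - 2 * (x : ℂ) ^ 2 - 1 = 0 := by exact_mod_cast hx
    have hq : z ^ 2 + (x - 2) * z + x * (x - 2) = 0 := by
      apply mul_left_cancel₀ (sub_ne_zero.2 hne)
      linear_combination hz - hxc
    have hre := congrArg Complex.re hq
    have him := congrArg Complex.im hq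
    simp [sq] at hre him
    have hn : z.re * z.re + z.im * z.im < 1 := by
      rcases eq_or_ne z.im 0 with h0 | h0
      · rw [h0] at hre
        nlinarith [sq_nonneg (2 * z.re + (x - 2))]
      · have : 2 * z.re + (x - 2) = 0 := by
          apply mul_left_cancel₀ h0; linarith
        have e : z.re = -(x - 2) / 2 := by linarith
        rw [e] at hre ⊢
        nlinarith
    rw [← Complex.normSq_apply, Complex.normSq_eq_norm_sq] at hn
    nlinarith [norm_nonneg z]
  have hm : (X ^ 3 - 2 * X ^ 2 - 1 : ℤ[X]).Monic := cp ▸ Matrix.charpoly_monic _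
  have hxp : aeval x (X ^ 3 - 2 * X ^ 2 - 1 : ℤ[X]) = 0 := by simpa [map_ofNat] using hx
  refine ⟨⟨x, by rw [cp]; exact hxp, fun z hz => ?_, by linarith, ⟨_, hm, hxp⟩,
    fun z hz hne => key z ?_ hne⟩, ?_, ?_⟩
  · rw [cp] at hz
    rcases eq_or_ne z x with rfl | hne
    · rw [Complex.norm_real, Real.norm_eq_abs, abs_of_pos (by linarith)]
    · linarith [key z (by simpa [map_ofNat] using hz) hne]
  · obtain ⟨r, hr⟩ := minpoly.dvd ℚ x (p := X ^ 3 - 2 * X ^ 2 - 1) (by simpa [map_ofNat] using hx)
    have := congrArg (aeval z) hr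
    rw [map_mul, hz, zero_mul] at this
    simpa [map_ofNat] using this
  · have hd : ((incid σ).charpoly.map (Int.castRingHom ℚ)).natDegree = 3 := by
      rw [(Matrix.charpoly_monic _).natDegree_map, Matrix.charpoly_natDegree_eq_dim]; rfl
    rw [Polynomial.irreducible_iff_roots_eq_zero_of_degree_le_three (by omega) (by omega),
      Multiset.eq_zero_iff_forall_notMem]
    intro r hr
    have h0 := (mem_roots'.1 hr).2
    rw [cp, IsRoot.def, eval_map, ← algebraMap_int_eq, ← aeval_def] at h0
    obtain ⟨m, rfl⟩ := isInteger_of_is_root_of_monic hm h0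
    have h1 : ((m ^ 3 - 2 * m ^ 2 - 1 : ℤ) : ℚ) = 0 := by simpa [map_ofNat] using h0
    have h2 : m * (m ^ 2 - 2 * m) = 1 := by
      have : m ^ 3 - 2 * m ^ 2 - 1 = 0 := by exact_mod_cast h1
      linear_combination this
    rcases Int.eq_one_or_neg_one_of_mul_eq_one h2 with rfl | rfl <;> norm_num at h2
  · rw [incid_eq, Matrix.det_fin_three]; simp

def P : Fin 3 → Word 3 × Word 3 := ![([0, 1], [1, 0]), ([2], [2]), ([0], [0])]

def B : Finset (Word 3 × Word 3) := {([0, 1], [1, 0]), ([2], [2]), ([0], [0])}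

lemma rev_cp : (incid σ).charpoly.reverse = 1 - 2 * X - X ^ 3 := by
  have hd : (incid σ).charpoly.natDegree = 3 := by rw [Matrix.charpoly_natDegree_eq_dim]; rfl
  rw [reverse, hd, cp]
  have e : (X ^ 3 - 2 * X ^ 2 - 1 : ℤ[X]) = X ^ 3 - C 2 * X ^ 2 - X ^ 0 := by simp
  rw [e, reflect_sub, reflect_sub, reflect_monomial, reflect_monomial, reflect_C_mul_X_pow]
  simp [revAt]

theorem result : ∃ (k : ℕ) (σ : Fin k → Word k) (u v : ℕ → Fin k) (n : ℕ)
    (B : Finset (Word k × Word k)), k = 3 ∧ UIP σ ∧ rev σ ≠ σ ∧ IsFixed σ u ∧ IsFixed (rev σ) v ∧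
    IsLeast {m | 1 ≤ m ∧ Bal (pre u m) (pre v m)} n ∧
    (∀ Q, Q ∈ B ↔ Relation.ReflTransGen (fun P Q => Q ∈ Sig σ P) (pre u n, pre v n) Q) ∧
    (incid σ).charpoly ≠ (incid σ).charpoly.reverse ∧
    (incid σ).charpoly ≠ -(incid σ).charpoly.reverse ∧
    ¬ (incid σ).charpoly.reverse ∣ (MSig σ B).charpoly := by
  obtain ⟨u, hu, u0, u1⟩ := exists_fixed σ (by decide) 0 1 [] rfl
  obtain ⟨v, hv, v0, v1⟩ := exists_fixed (rev σ) (by decide) 1 0 [2] rfl
  have pu : pre u 2 = [0, 1] := by simp [pre, List.range_succ, u0, u1]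
  have pv : pre v 2 = [1, 0] := by simp [pre, List.range_succ, v0, v1]
  refine ⟨3, σ, u, v, 2, B, rfl, uip, by decide, hu, hv, ⟨⟨by norm_num, ?_⟩, ?_⟩, fun Q => ?_,
    fun h => ?_, fun h => ?_, fun h => ?_⟩
  · rw [pu, pv]; decide
  · rintro m ⟨h1, h2⟩
    by_contra h
    obtain rfl : m = 1 := by omega
    have : Bal ([0] : Word 3) [1] := by simpa [pre, u0, v0] using h2
    revert this; decide
  · rw [pu, pv]
    constructor
    · intro h
      have s1 : (([2], [2]) : Word 3 × Word 3) ∈ Sig σ ([0, 1], [1, 0]) := by decide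
      have s2 : (([0], [0]) : Word 3 × Word 3) ∈ Sig σ ([2], [2]) := by decide
      simp only [B, Finset.mem_insert, Finset.mem_singleton] at h
      rcases h with rfl | rfl | rfl
      · exact .refl
      · exact .single s1
      · exact (Relation.ReflTransGen.single s1).tail s2
    · intro h
      have cl : ∀ P ∈ B, ∀ Q ∈ Sig σ P, Q ∈ B := by decide
      induction h with
      | refl => decide
      | tail _ h2 ih => exact cl _ ih _ h2
  · rw [rev_cp, cp] at h
    have := congrArg (eval 0) h
    norm_num at this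
  · rw [rev_cp, cp] at h
    have := congrArg (eval 1) h
    norm_num at this
  · have h2 := eval_dvd (x := 2) h
    have hb : Function.Bijective (fun i : Fin 3 => (⟨P i, by revert i; decide⟩ : B)) := by decide
    rw [rev_cp, Matrix.eval_charpoly,
      ← Matrix.det_submatrix_equiv_self (Equiv.ofBijective _ hb)] at h2
    have e : ((Matrix.scalar B) 2 - MSig σ B).submatrix (Equiv.ofBijective _ hb)
        (Equiv.ofBijective _ hb) = !![0, 0, -1; -1, 2, 0; 0, -1, 2] := by
      ext i j
      simp only [Matrix.submatrix_apply, Equiv.ofBijective_apply]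
      revert i j
      decide
    have e2 : (!![0, 0, -1; -1, 2, 0; 0, -1, 2] : Matrix (Fin 3) (Fin 3) ℤ).det = -1 := by
      rw [Matrix.det_fin_three]; simp
    rw [e, e2] at h2
    norm_num at h2

end Pool.Agent.Results.MP_7b40b5_an.No
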